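import Mathlib

open Filter Topology Set TopologicalSpace Function

namespace Pool.Agent.Results.MP_2aac2f_an.Sturm

/-- least cardinality of an `(n, ε)`-spanning set -/
noncomputable def Span {X : Type} [MetricSpace X] (T : X → X) (n : ℕ) (ε : ℝ) : ℕ :=
  sInf {m | ∃ E : Finset X, E.card = m ∧ ∀ x, ∃ y ∈ E, ∀ i < n, dist (T^[i] x) (T^[i] y) < ε}

lemma sect {Y β : Type} [Nonempty Y] (D : Y → β) (B : Finset β) (h : ∀ x, D x ∈ B) :
    ∃ E : Finset Y, E.card ≤ B.card ∧ ∀ x, ∃ y ∈ E, D x = D y := by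
  classical exact ⟨B.image (invFun D), Finset.card_image_le, fun x =>
    ⟨_, Finset.mem_image_of_mem _ (h x), (invFun_eq ⟨x, rfl⟩).symm⟩⟩

noncomputable def s (θ : ℝ) (i : ℕ) : ℤ := ⌊θ + (i + 1 : ℕ) * √2⌋ - ⌊θ + i * √2⌋
noncomputable def σ (N : ℕ) (θ : ℝ) : ℕ := ∑ j ∈ Finset.range (N + 1), (⌊θ + j * √2⌋ - ⌊j * √2⌋).toNat

lemma σ_le (N : ℕ) {θ : ℝ} (h : θ < 1) : σ N θ ≤ N + 1 :=
  (Finset.sum_le_card_nsmul _ _ 1 fun j _ => by
    have := Int.floor_le_floor (show θ + j * √2 ≤ j * √2 + 1 by linarith)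
    rw [Int.floor_add_one] at this; omega).trans (by simp)

lemma σ_eq {N : ℕ} {θ θ' : ℝ} (h : 0 ≤ θ) (e : θ ≤ θ') (l : σ N θ' ≤ σ N θ) : ∀ j < N, s θ j = s θ' j := by
  have m : ∀ j : ℕ, ⌊θ + j * √2⌋ ≤ ⌊θ' + j * √2⌋ := fun j => Int.floor_le_floor (by linarith)
  have m' : ∀ j ∈ Finset.range (N + 1), (⌊θ + j * √2⌋ - ⌊j * √2⌋).toNat ≤ (⌊θ' + j * √2⌋ - ⌊j * √2⌋).toNat :=
    fun j _ => by have := m j; omega
  have := (Finset.sum_eq_sum_iff_of_le m').1 ((Finset.sum_le_sum m').antisymm l)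
  have : ∀ j ≤ N, ⌊θ + j * √2⌋ = ⌊θ' + j * √2⌋ := fun j hj => by
    have := this j (by simpa using Nat.lt_succ_of_le hj)
    have := m j
    have : ⌊j * √2⌋ ≤ ⌊θ + j * √2⌋ := Int.floor_le_floor (by linarith)
    omega
  exact fun j hj => by rw [s, s, this j hj.le, this _ hj]

lemma btw (k : ℕ) : ∃ M : ℕ, 0 < M ∧ ∀ a θ b : ℝ, a ≤ θ → θ ≤ b → b - a < 1 / M →
    (∀ j < k, s θ j = s a j) ∨ ∀ j < k, s θ j = s b j := by
  obtain ⟨δ, δ0, hδ⟩ : ∃ δ > 0, ∀ j ∈ Finset.Icc (-k : ℤ) k, ∀ m : ℤ, 0 < m - j * √2 → δ ≤ m - j * √2 := by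
    have : ∀ j ∈ Finset.Icc (-k : ℤ) k, ∀ᶠ δ in 𝓝[>] (0 : ℝ), ∀ m : ℤ, 0 < m - j * √2 → δ ≤ m - j * √2 := fun j _ =>
      mem_of_superset (Ioo_mem_nhdsGT (sub_pos.2 (Int.lt_floor_add_one (j * √2)))) fun δ h m e => by
        have : ((⌊j * √2⌋ + 1 : ℤ) : ℝ) ≤ m := Int.cast_le.2 (Int.floor_lt.2 (by linarith))
        push_cast at this; linarith [h.2]
    exact ((Finset.eventually_all _).2 this |>.and self_mem_nhdsWithin).exists.imp fun _ => And.symm
  obtain ⟨M, hM⟩ := exists_nat_one_div_lt δ0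
  refine ⟨M + 1, by omega, fun a θ b h1 h2 h3 => ?_⟩
  by_contra! h
  have f : ∀ x y : ℝ, (∃ j < k, s x j ≠ s y j) → ∃ j : ℕ, j ≤ k ∧ ⌊x + j * √2⌋ ≠ ⌊y + j * √2⌋ := fun x y ⟨j, hj, e⟩ => by
    by_contra! c; exact e (by rw [s, s, c j hj.le, c _ hj])
  obtain ⟨i, hi, e1⟩ := f _ _ h.1
  obtain ⟨j, hj, e2⟩ := f _ _ h.2
  have a1 := Int.floor_lt.1 ((Int.floor_le_floor (show a + i * √2 ≤ θ + i * √2 by linarith)).lt_of_ne e1.symm)
  have a2 := Int.floor_lt.1 ((Int.floor_le_floor (show θ + j * √2 ≤ b + j * √2 by linarith)).lt_of_ne e2)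
  have := hδ (j - i) (by simp; omega) (⌊b + j * √2⌋ - ⌊θ + i * √2⌋)
  push_cast at this h3
  have a3 := Int.floor_le (θ + i * √2)
  have a4 := Int.floor_le (b + j * √2)
  linarith [this (by linarith)]

lemma s_add (θ : ℝ) (i j : ℕ) : s (θ + i * √2) j = s θ (j + i) := by simp only [s]; push_cast; ring_nf

attribute [local instance] PiNat.metricSpace

def X : Type := closure (range s)

noncomputable instance : MetricSpace X := inferInstanceAs (MetricSpace (closure (range s)))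

instance : CompactSpace X := isCompact_iff_compactSpace.1 <|
  (isCompact_univ_pi fun _ => (finite_Icc (0 : ℤ) 2).isCompact).of_isClosed_subset isClosed_closure
    (closure_minimal (by
      rintro _ ⟨θ, rfl⟩ i -
      have : √2 ≤ 2 := Real.sqrt_le_iff.2 (by norm_num)
      have a := Int.floor_le_floor (show θ + i * √2 ≤ θ + (i + 1 : ℕ) * √2 by push_cast; linarith [Real.sqrt_nonneg 2])
      have b := Int.floor_le_floor (show θ + (i + 1 : ℕ) * √2 ≤ θ + i * √2 + 2 by push_cast; linarith)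
      rw [Int.floor_add_ofNat] at b
      simp only [s, mem_Icc]; omega) (isClosed_set_pi fun _ _ => isClosed_discrete _))

lemma cs : Continuous fun (x : ℕ → ℤ) i => x (i + 1) := by fun_prop

def T (x : X) : X := ⟨fun i => x.1 (i + 1), MapsTo.closure (s := range s) (t := range s) (by
  rintro _ ⟨θ, rfl⟩; exact ⟨θ + (1 : ℕ) * √2, funext fun i => s_add θ 1 i⟩) cs x.2⟩

lemma cT : Continuous T := (cs.comp continuous_subtype_val).subtype_mk _

lemma it (i : ℕ) (x : X) (j : ℕ) : (T^[i] x).1 j = x.1 (j + i) := by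
  induction i generalizing j with
  | zero => rfl
  | succ i ih => rw [iterate_succ_apply']; exact (ih (j + 1)).trans (by ring_nf)

lemma ap (N : ℕ) (x : X) : ∃ θ ∈ Ico (0 : ℝ) 1, ∀ j < N, x.1 j = s θ j := by
  obtain ⟨_, h, θ, rfl⟩ := mem_closure_iff.1 x.2 _ (PiNat.isOpen_cylinder _ x.1 N) (PiNat.self_mem_cylinder _ _)
  refine ⟨Int.fract θ, ⟨Int.fract_nonneg _, Int.fract_lt_one _⟩, fun j hj => (h j hj).symm.trans ?_⟩
  simp only [s, Int.fract, sub_add_eq_add_sub, Int.floor_sub_intCast]; ring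

lemma near {ε : ℝ} (h : 0 < ε) : ∃ k : ℕ, ∃ r, 0 ≤ r ∧ r < ε ∧ ∀ (i : ℕ) (x y : X), (∀ j < k, x.1 (j + i) = y.1 (j + i)) →
    dist (T^[i] x) (T^[i] y) ≤ r := by
  obtain ⟨k, hk⟩ := exists_pow_lt_of_lt_one h (by norm_num : (1 / 2 : ℝ) < 1)
  exact ⟨k, _, by positivity, hk, fun i x y e => PiNat.mem_cylinder_iff_dist_le.1 fun j hj => by rw [it, it, e j hj]⟩

instance : Nonempty X := ⟨⟨s 0, subset_closure ⟨0, rfl⟩⟩⟩

lemma up {ε : ℝ} (h : 0 < ε) : ∃ k, ∀ n, ∃ E : Finset X, E.card ≤ n + k + 2 ∧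
    ∀ x, ∃ y ∈ E, ∀ i < n, dist (T^[i] x) (T^[i] y) < ε := by
  obtain ⟨k, r, -, r1, hk⟩ := near h
  refine ⟨k, fun n => ?_⟩
  choose θ h1 h2 using ap (n + k)
  obtain ⟨E, e1, e2⟩ := sect (fun x => σ (n + k) (θ x)) (Finset.range (n + k + 2)) fun x =>
    Finset.mem_range.2 (Nat.lt_succ_of_le (σ_le _ (h1 x).2))
  refine ⟨E, by simpa using e1, fun x => (e2 x).imp fun y ⟨a, b⟩ => ⟨a, fun i hi => (hk i x y fun j hj => ?_).trans_lt r1⟩⟩
  rw [h2 x _ (by omega), h2 y _ (by omega)]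
  rcases le_total (θ x) (θ y) with e | e
  exacts [σ_eq (h1 x).1 e b.ge _ (by omega), (σ_eq (h1 y).1 e b.le _ (by omega)).symm]

lemma low (n : ℕ) : n ≤ Span T n 1 := by
  obtain ⟨k, hk⟩ := up one_pos
  obtain ⟨E, -, e⟩ := hk n
  refine le_csInf ⟨_, E, rfl, e⟩ ?_
  rintro _ ⟨E, rfl, e⟩
  choose y y1 y2 using e
  let θ : ℕ → ℝ := fun j => Int.fract (-(j * √2))
  let x : ℕ → X := fun j => ⟨s (θ j), subset_closure ⟨_, rfl⟩⟩
  have k : ∀ a < n, ∀ b < n, y (x a) = y (x b) → θ b ≤ θ a := fun a ha b hb e => by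
    have : ∀ i ≤ n, ⌊θ a + i * √2⌋ = ⌊θ b + i * √2⌋ := fun i hi => by
      induction i with
      | zero => simp [θ]
      | succ i ih =>
        have u : ∀ c, s (θ c) i = (y (x c)).1 i := fun c => by
          simpa [it] using PiNat.apply_eq_of_dist_lt (n := 0) (x := (T^[i] (x c)).1) (y := (T^[i] (y (x c))).1)
            ((y2 (x c) i hi).trans_eq (by simp)) le_rfl
        have := (u a).trans (e ▸ (u b).symm)
        have := ih (by omega)
        simp only [s] at *; omega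
    have u := this b hb.le
    rw [show θ b + b * √2 = (-⌊-(b * √2)⌋ : ℤ) by simp only [θ, Int.fract]; push_cast; ring, Int.floor_intCast] at u
    have := Int.floor_le (θ a + b * √2)
    rw [u] at this
    simp only [θ, Int.fract] at *; push_cast at this; linarith
  refine (Finset.card_range n).ge.trans (Finset.card_le_card_of_injOn (fun j => y (x j)) (fun j _ => y1 _)
    fun a ha b hb e => by_contra fun ne => ?_)
  obtain ⟨z, hz⟩ := Int.fract_eq_fract.1 ((k b (by simpa using hb) a (by simpa using ha) e.symm).antisymm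
    (k a (by simpa using ha) b (by simpa using hb) e))
  exact (irrational_sqrt_two.intCast_mul (m := b - a) (by omega)).ne_int z (by push_cast; linarith)

lemma hyp {ε : ℝ} (h : 0 < ε) : ∃ k M, ∀ n, ∃ E : Finset (NonemptyCompacts X), E.card ≤ (n + k) ^ M ∧
    ∀ W, ∃ W' ∈ E, ∀ i < n, dist ((NonemptyCompacts.map T cT)^[i] W) ((NonemptyCompacts.map T cT)^[i] W') < ε := by
  obtain ⟨k, r, r0, r1, hk⟩ := near h
  obtain ⟨M, M0, hM⟩ := btw k
  refine ⟨k + 3, 2 * M, fun n => ?_⟩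
  choose θ h1 h2 using ap (n + k)
  let A : NonemptyCompacts X → Fin M → Set ℕ := fun W j => (fun x => σ (n + k) (θ x) + 1) '' {x ∈ W | ⌊M * θ x⌋₊ = j}
  have bd : ∀ W j, ∀ m ∈ A W j, m ≤ n + k + 2 := by
    rintro W j _ ⟨x, -, rfl⟩; exact Nat.succ_le_succ (σ_le _ (h1 x).2)
  obtain ⟨E, e1, e2⟩ := sect (fun W j => (sInf (A W j), sSup (A W j)))
    (Fintype.piFinset fun _ => Finset.range (n + k + 3) ×ˢ Finset.range (n + k + 3)) fun W => by
    simp only [Fintype.mem_piFinset, Finset.mem_product, Finset.mem_range, Nat.lt_succ_iff]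
    refine fun j => ⟨?_, csSup_le' (bd W j)⟩
    rcases (A W j).eq_empty_or_nonempty with e | e
    exacts [by simp [e], bd W j _ (Nat.sInf_mem e)]
  have M1 : (0 : ℝ) < M := Nat.cast_pos.2 M0
  have key : ∀ W W', (∀ j, (sInf (A W j), sSup (A W j)) = (sInf (A W' j), sSup (A W' j))) → ∀ i < n,
      ∀ x ∈ T^[i] '' W, ∃ y ∈ T^[i] '' W', dist x y ≤ r := by
    rintro W W' e i hi _ ⟨x, hx, rfl⟩
    let j : Fin M := ⟨⌊M * θ x⌋₊, (Nat.floor_lt (by nlinarith [(h1 x).1])).2 (by nlinarith [(h1 x).2])⟩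
    have m : σ (n + k) (θ x) + 1 ∈ A W j := ⟨x, ⟨hx, rfl⟩, rfl⟩
    have l1 := (Nat.sInf_le m).trans_eq' (congrArg Prod.fst (e j))
    have l2 := (le_csSup ⟨_, bd W j⟩ m).trans_eq (congrArg Prod.snd (e j))
    have ne : (A W' j).Nonempty := nonempty_iff_ne_empty.2 fun c => by simp [c] at l2
    obtain ⟨a, ⟨a1, a2⟩, a3⟩ := Nat.sInf_mem ne
    obtain ⟨b, ⟨b1, b2⟩, b3⟩ := Nat.sSup_mem ne ⟨_, bd W' j⟩
    simp only at a3 b3 l1 l2
    suffices ∃ y ∈ W', ∀ j < k, s (θ x) (j + i) = s (θ y) (j + i) from this.elim fun y ⟨y1, y2⟩ =>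
      ⟨_, ⟨y, y1, rfl⟩, hk i x y fun j hj => by rw [h2 x _ (by omega), h2 y _ (by omega), y2 j hj]⟩
    rcases le_total (θ x) (θ a) with c | c
    · exact ⟨a, a1, fun j hj => σ_eq (N := n + k) (h1 x).1 c (by omega) _ (by omega)⟩
    rcases le_total (θ b) (θ x) with d | d
    · exact ⟨b, b1, fun j hj => (σ_eq (N := n + k) (h1 b).1 d (by omega) _ (by omega)).symm⟩
    have := hM (θ a + i * √2) (θ x + i * √2) (θ b + i * √2) (by linarith) (by linarith) (by
      have := Nat.floor_le (show 0 ≤ M * θ a by nlinarith [(h1 a).1])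
      have := Nat.lt_floor_add_one (M * θ b)
      rw [a2] at *; rw [b2] at *; rw [lt_div_iff₀ M1]; linarith)
    simp only [s_add] at this
    exact this.elim (fun e => ⟨a, a1, e⟩) fun e => ⟨b, b1, e⟩
  have im : ∀ i (W : NonemptyCompacts X), ((NonemptyCompacts.map T cT)^[i] W : Set X) = T^[i] '' W := fun i W => by
    induction i with
    | zero => simp
    | succ i ih => rw [iterate_succ_apply', NonemptyCompacts.coe_map, ih, image_image, iterate_succ']; rfl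
  refine ⟨E, e1.trans (by simp [pow_mul, sq, add_assoc]), fun W => (e2 W).imp fun W' ⟨a, b⟩ => ⟨a, fun i hi => ?_⟩⟩
  rw [Metric.NonemptyCompacts.dist_eq, im, im]
  exact (Metric.hausdorffDist_le_of_mem_dist r0 (key _ _ (congrFun b) i hi) (key _ _ (congrFun b.symm) i hi)).trans_lt r1

theorem result : ∃ (X : Type) (_ : MetricSpace X) (_ : CompactSpace X) (T : X → X) (hT : Continuous T),
    (∀ ε > 0, ∃ C : ℝ, ∀ n ≥ 1, Span T n ε ≤ C * n) ∧ (∃ ε > 0, ∃ c : ℝ, 0 < c ∧ ∀ n ≥ 1, c * n ≤ Span T n ε) ∧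
    Dynamics.coverEntropy (NonemptyCompacts.map T hT) univ = 0 := by
  refine ⟨X, inferInstance, inferInstance, T, cT, fun ε h => ?_, ⟨1, one_pos, 1, one_pos, fun n _ => by simpa using low n⟩,
    le_antisymm (iSup₂_le fun U hU => ExpGrowth.expGrowthSup_le_iff.2 fun b hb => ?_)
      (Dynamics.coverEntropy_nonneg _ univ_nonempty)⟩
  · obtain ⟨k, hk⟩ := up h
    refine ⟨(k + 3 : ℕ), fun n hn => ?_⟩
    obtain ⟨E, e1, e2⟩ := hk n
    have : Span T n ε ≤ E.card := Nat.sInf_le ⟨E, rfl, e2⟩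
    exact_mod_cast this.trans (e1.trans (by nlinarith))
  · obtain ⟨ε, e0, hε⟩ := Metric.mem_uniformity_dist.1 hU
    obtain ⟨k, M, h⟩ := hyp e0
    obtain ⟨c, c0, c1⟩ := EReal.lt_iff_exists_real_btwn.1 hb
    have r1 : 1 < Real.exp c := Real.one_lt_exp_iff.2 (by exact_mod_cast c0)
    filter_upwards [((tendsto_add_atTop_iff_nat k).2 (tendsto_pow_const_div_const_pow_of_one_lt M r1)).eventually_lt_const
      (u := 1 / Real.exp c ^ k) (by positivity)] with n hn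
    obtain ⟨E, e1, e2⟩ := h n
    have : (E.card : ℝ) ≤ Real.exp (c * n) := by
      rw [div_lt_div_iff₀ (by positivity) (by positivity), pow_add, one_mul, mul_lt_mul_iff_left₀ (by positivity)] at hn
      rw [mul_comm, Real.exp_nat_mul]
      exact le_trans (by exact_mod_cast e1) hn.le
    refine (ENat.toENNReal_mono (Dynamics.IsDynCoverOf.coverMincard_le_card (s := E) fun W _ => (e2 W).imp
      fun W' ⟨a, b⟩ => ⟨a, Dynamics.mem_dynEntourage.2 fun i hi => hε (b i hi)⟩)).trans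
      (le_trans ?_ (EReal.exp_monotone (mul_le_mul_of_nonneg_right c1.le n.cast_nonneg')))
    rw [show (c : EReal) * n = (c * n : ℝ) by norm_cast, EReal.exp_coe]
    simpa using ENNReal.ofReal_le_ofReal this

end Pool.Agent.Results.MP_2aac2f_an.Sturm
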